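import Pool.Agent.Lib.MP_b89832_lc.Main

set_option autoImplicit false

/-!
Randomized `𝔽₂`-linear sketches can be exponentially more expensive than randomized one-way
protocols for the XOR function: the conjecture `R^lin(f) = Θ~(R^→(f⁺))` is false.

`parity`, `HasLinearSketch`, `Rlin`, `HasOneWayProtocol`, `Roneway` and `xorFun` are defined in
`Pool.Agent.Lib.MP_b89832_lc.Defs`.
-/

namespace Pool.Agent.Results.MP_b89832_lc.ExponentialGap

open Filter Pool.Agent.Lib.MP_b89832_lc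

/-- First part: for every `d ≥ 1` and `δ > 0` there is `C` such that for all large `n` some
`f : {0,1}^n → {0,1}` has `R^→(f⁺) ≤ C (log n)^d` and `R^lin(f) ≥ n^(d/(d+1) - δ)`.
Second part (negation of Q1): there are `f_n : {0,1}^n → {0,1}` such that for every real `a`, for all
large `n`, the ratio `R^lin(f_n) / (R^→(f_n⁺) + 1)` is larger than `(log n)^a`. -/
theorem result :
    (∀ d : ℕ, 1 ≤ d → ∀ δ : ℝ, 0 < δ → ∃ C : ℝ, ∃ n₀ : ℕ, ∀ n : ℕ, n₀ ≤ n →
      ∃ f : (Fin n → ZMod 2) → Bool,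
        (Roneway (xorFun f) : ℝ) ≤ C * Real.log n ^ d ∧
          (n : ℝ) ^ ((d : ℝ) / (d + 1) - δ) ≤ Rlin f) ∧
    ∃ f : (n : ℕ) → (Fin n → ZMod 2) → Bool, ∀ a : ℝ, ∀ᶠ n : ℕ in atTop,
      Real.log n ^ a * ((Roneway (xorFun (f n)) : ℝ) + 1) < Rlin (f n) := by
  classical
  refine ⟨fun d hd δ hδ => main d hd δ hδ, ?_⟩
  obtain ⟨C, n₀, h⟩ := main 1 le_rfl (1 / 4) (by norm_num)
  choose! f hf1 hf2 using h
  refine ⟨f, fun a => ?_⟩
  have hlit := (isLittleO_log_rpow_rpow_atTop (a + 1) (by norm_num : (0 : ℝ) < 1 / 4)).def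
    (by positivity : (0 : ℝ) < 1 / (2 * (|C| + 1)))
  have hnat := (tendsto_natCast_atTop_atTop (R := ℝ)).eventually hlit
  have hlog := (Real.tendsto_log_atTop.comp
    (tendsto_natCast_atTop_atTop (R := ℝ))).eventually_ge_atTop 1
  filter_upwards [hnat, hlog, eventually_ge_atTop n₀, eventually_ge_atTop 1] with n h1 h2 h3 h4
  have h2' : 1 ≤ Real.log n := h2
  have hn0 : (0 : ℝ) < n := by exact_mod_cast h4
  have hlog0 : 0 < Real.log n := by linarith
  have hup := hf1 n h3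
  have hlow := hf2 n h3
  rw [pow_one] at hup
  have hexp : ((1 : ℕ) : ℝ) / ((1 : ℕ) + 1) - 1 / 4 = 1 / 4 := by norm_num
  rw [hexp] at hlow
  rw [Real.norm_of_nonneg (by positivity), Real.norm_of_nonneg (by positivity)] at h1
  have hC : 0 < |C| + 1 := by positivity
  have h5 : (Roneway (xorFun (f n)) : ℝ) + 1 ≤ (|C| + 1) * Real.log n := by
    have : C * Real.log n ≤ |C| * Real.log n := mul_le_mul_of_nonneg_right (le_abs_self C) hlog0.le
    linarith
  have h6 : Real.log n ^ a * ((Roneway (xorFun (f n)) : ℝ) + 1) ≤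
      (|C| + 1) * Real.log n ^ (a + 1) := by
    rw [Real.rpow_add hlog0, Real.rpow_one]
    have h7 : 0 < Real.log n ^ a := by positivity
    calc Real.log n ^ a * ((Roneway (xorFun (f n)) : ℝ) + 1) ≤
        Real.log n ^ a * ((|C| + 1) * Real.log n) := mul_le_mul_of_nonneg_left h5 h7.le
      _ = _ := by ring
  have h8 : (|C| + 1) * Real.log n ^ (a + 1) ≤ 1 / 2 * (n : ℝ) ^ ((1 : ℝ) / 4) := by
    calc (|C| + 1) * Real.log n ^ (a + 1) ≤
        (|C| + 1) * (1 / (2 * (|C| + 1)) * (n : ℝ) ^ ((1 : ℝ) / 4)) :=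
          mul_le_mul_of_nonneg_left h1 hC.le
      _ = 1 / 2 * (n : ℝ) ^ ((1 : ℝ) / 4) := by field_simp
  have h9 : (0 : ℝ) < (n : ℝ) ^ ((1 : ℝ) / 4) := by positivity
  linarith

end Pool.Agent.Results.MP_b89832_lc.ExponentialGap
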